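import Pool.Agent.MP_c69980_ag.H43.Spec10

/-!
An algebraic curve tangent to a linear foliation lifts to a leaf in the universal cover.
-/

set_option autoImplicit false

namespace Pool.Agent.MP_c69980_ag.H43

open MvPolynomial H60 Finset Filter Topology Metric

section Val
variable {L : Type} [Field L] [Algebra ℂ L] (h : FFd L) (P : Pl L)
include h

lemma lift_mul {x y : L} (hx : x ∈ P.V) (hy : y ∈ P.V) : P.val (x * y) = P.val x * P.val y := by
  obtain ⟨χ, h1, -⟩ := h.a.hom P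
  exact (h1 (⟨x, hx⟩ * ⟨y, hy⟩)).symm.trans (by rw [map_mul, h1, h1])

lemma lift_add {x y : L} (hx : x ∈ P.V) (hy : y ∈ P.V) : P.val (x + y) = P.val x + P.val y := by
  obtain ⟨χ, h1, -⟩ := h.a.hom P
  exact (h1 (⟨x, hx⟩ + ⟨y, hy⟩)).symm.trans (by rw [map_add, h1, h1])

lemma lift_cst (c : ℂ) : P.val (algebraMap ℂ L c) = c := (h.a.hom P).choose_spec.2 c

lemma lift_one : P.val 1 = 1 := by simpa using lift_cst h P 1

lemma lift_zero : P.val 0 = 0 := by simpa using lift_cst h P 0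

lemma lift_sum {ι : Type} (s : Finset ι) (f : ι → L) (hf : ∀ i, f i ∈ P.V) :
    P.val (∑ i ∈ s, f i) = ∑ i ∈ s, P.val (f i) := by
  classical
  induction s using Finset.induction_on with
  | empty => simpa using lift_zero h P
  | insert i s hi ih =>
    rw [sum_insert hi, sum_insert hi, lift_add h P (hf i) (sum_mem fun j _ => hf j), ih]

lemma lift_aeval {ι : Type} {x : ι → L} (hx : ∀ i, x i ∈ P.V) (F : MvPolynomial ι ℂ) :
    aeval x F ∈ P.V ∧ P.val (aeval x F) = eval (fun i => P.val (x i)) F := by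
  induction F using MvPolynomial.induction_on with
  | C c => simpa using ⟨P.const c, lift_cst h P c⟩
  | add p q hp hq =>
    rw [map_add, map_add]
    exact ⟨add_mem hp.1 hq.1, by rw [lift_add h P hp.1 hq.1, hp.2, hq.2]⟩
  | mul_X p i hp =>
    rw [map_mul, map_mul, aeval_X, eval_X]
    exact ⟨mul_mem hp.1 (hx i), by rw [lift_mul h P hp.1 (hx i), hp.2]⟩

lemma lift_div {x u : L} (hx : x ∈ P.V) (hu : u ∈ P.V) (h0 : P.val u ≠ 0) :
    u ≠ 0 ∧ x / u ∈ P.V ∧ P.val (x / u) = P.val x / P.val u := by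
  have n : u ≠ 0 := fun e => h0 (by rw [e, lift_zero h P])
  have i : u⁻¹ ∈ P.V := by
    by_contra c
    refine h0 ((h.a.val P u hu 0).1 ?_)
    rw [map_zero, sub_zero, h.a.zero, ValuationSubring.mem_nonunits_iff_or]
    exact Or.inr c
  have m : x / u ∈ P.V := by rw [div_eq_mul_inv]; exact mul_mem hx i
  refine ⟨n, m, ?_⟩
  rw [eq_div_iff h0, ← lift_mul h P m hu, div_mul_cancel₀ _ n]

lemma lift_vf {M t g : ℕ} (Q : Fin g → CI M t → CP M t) {v : Fin g → L} {y : CI M t → L}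
    (hv : ∀ i, v i ∈ P.V) (hy : ∀ x, y x ∈ P.V) (x : CI M t) :
    P.val (vf Q v y x) = vf Q (fun i => P.val (v i)) (fun x => P.val (y x)) x := by
  rw [vf_eq, vf, lift_sum h P _ _ fun i => mul_mem (hv i) (lift_aeval h P hy _).1]
  exact sum_congr rfl fun i _ => by
    rw [lift_mul h P (hv i) (lift_aeval h P hy _).1, (lift_aeval h P hy _).2]

end Val

variable {t a M : ℕ} {w : Fin M → Option (Fin t)} {Θ : Pt t a → Fin M → ℂ} {PP : PT M t a}
  {k : Subfield ℂ} {L : Type} [Field L] [Algebra ℂ L] {y : Fin M → L} {P : Pl L} {p q : Pt t a}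
  {β : Cht M t}

/-- The value of `y` at `P` is `Θ p`. -/
def LiftAt (Θ : Pt t a → Fin M → ℂ) (y : Fin M → L) (P : Pl L) (p : Pt t a) : Prop :=
  ∀ c b, Θ p b ≠ 0 → y b ≠ 0 ∧ y c / y b ∈ P.V ∧ P.val (y c / y b) = Θ p c / Θ p b

lemma lift_chart (h : FFd L) (hc : Clh w Θ k) (hy : OnG w Θ y) (hβ : Ch w β y)
    (hV : ∀ x, co β y x ∈ P.V) : ∃ p, Ch w β (Θ p) ∧ LiftAt Θ y P p := by
  obtain ⟨p, hp, e⟩ := hc.chart (β := β) (y := fun x => P.val (co β y x))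
    (fun o => ⟨(hβ o).1, fun e => by
      have := lift_mul h P (hV (β o, none)) (hV (β none, o))
      simp only [co] at this e
      rw [div_mul_div_cancel₀ (hβ none).2, div_self (hβ o).2, lift_one h P, e, zero_mul] at this
      exact one_ne_zero this⟩)
    (fun c o => by
      rw [← lift_mul h P (hV _) (hV _)]
      simp only [co]
      rw [div_mul_div_cancel₀ (hβ o).2])
    fun F d a1 _ a3 => by
      rw [← (lift_aeval h P hV _).2, eval_dh a1, hy.eqs F d a1 a3, zero_div, lift_zero h P]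
  refine ⟨p, hp, fun c b hb => ?_⟩
  have e' : ∀ x, P.val (co β y x) = co β (Θ p) x := fun x => (congrFun e x).symm
  obtain ⟨a1, a2, a3⟩ := lift_div h P (hV (c, none)) (hV (b, none))
    (by rw [e']; exact div_ne_zero hb (hp none).2)
  rw [div_eq_co hβ, div_eq_co hp, ← e', ← e']
  exact ⟨fun e => a1 (by simp [co, e]), a2, a3⟩

lemma LiftAt.smul (h : LiftAt Θ y P p) {l : ℂ} (e : Θ q = l • Θ p) : LiftAt Θ y P q := by
  intro c b hb
  rw [e] at hb ⊢
  simp only [Pi.smul_apply, smul_eq_mul, mul_ne_zero_iff] at hb ⊢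
  rw [mul_div_mul_left _ _ hb.1]
  exact h c b hb.2

lemma LiftAt.uni (hL : FFd L) (g : GA w Θ) (h : LiftAt Θ y P p) (h' : LiftAt Θ y P q) :
    p - q ∈ Lam Θ := by
  obtain ⟨b, -, hb⟩ := g.blk p none
  obtain ⟨b', -, hb'⟩ := g.blk q none
  obtain ⟨a1, a2, -⟩ := h b' b hb
  obtain ⟨a3, a4, a5⟩ := h' b b' hb'
  have n : Θ q b ≠ 0 := fun e => by
    have := lift_mul hL P a2 a4
    rw [div_mul_div_cancel₀ a1, div_self a3, lift_one hL P, a5, e, zero_div, mul_zero] at this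
    exact one_ne_zero this
  refine (g.par p q).1 ⟨Θ p b / Θ q b, funext fun c => ?_⟩
  have := (h c b hb).2.2.symm.trans (h' c b n).2.2
  simp only [Pi.smul_apply, smul_eq_mul]
  field_simp at this ⊢
  linear_combination this

lemma LiftAt.per (g : GA w Θ) (h : LiftAt Θ y P p) (e : q - p ∈ Lam Θ) : LiftAt Θ y P q :=
  let ⟨_, e'⟩ := (g.par q p).2 e
  h.smul e'

lemma LiftAt.co (h : LiftAt Θ y P p) (hβ : Ch w β (Θ p)) :
    Ch w β y ∧ ∀ x, co β y x ∈ P.V ∧ P.val (co β y x) = co β (Θ p) x :=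
  ⟨fun o => ⟨(hβ o).1, (h (β o) (β o) (hβ o).2).1⟩, fun x => (h x.1 (β x.2) (hβ x.2).2).2⟩

lemma LiftAt.red (g : GA w Θ) (h : LiftAt Θ y P p) :
    ∃ h, Red P y (Projectivization.mk ℂ (Θ p) h) := by
  obtain ⟨b, -, hb⟩ := g.blk p none
  have e : ∀ i, (y b)⁻¹ * y i = y i / y b := fun i => by rw [div_eq_inv_mul]
  have e' : (fun i => P.val ((y b)⁻¹ * y i)) = (Θ p b)⁻¹ • Θ p := funext fun i => by
    rw [e, (h i b hb).2.2, div_eq_inv_mul]; rfl
  have n : Θ p ≠ 0 := fun e => hb (congrFun e b)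
  refine ⟨n, (y b)⁻¹, fun i => e i ▸ (h i b hb).2.1, e' ▸ smul_ne_zero (inv_ne_zero hb) n, ?_⟩
  exact ((Projectivization.mk_eq_mk_iff' ℂ _ _ _ _).2 ⟨(Θ p b)⁻¹, e'.symm⟩).symm

/-- Local lifts to the universal cover. -/
lemma lift_loc (h : FFd L) (hl : Lft Θ) (gd : GD w Θ PP k) (hy : OnG w Θ y) {α : ℂ → Pl L} {ε : ℝ}
    (hε : 0 < ε) (hα : Arc α (ball 0 ε)) (h0 : LiftAt Θ y (α 0) p) :
    ∃ f : ℂ → Pt t a, AnalyticAt ℂ f 0 ∧ f 0 = p ∧ ∀ᶠ s in 𝓝 0, LiftAt Θ y (α s) (f s) := by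
  obtain ⟨β, hβ⟩ := gd.ch p
  obtain ⟨b1, b2⟩ := h0.co hβ
  have ev : ∀ᶠ s in 𝓝 (0 : ℂ), s ∈ ball (0 : ℂ) ε ∧ ∀ x, co β y x ∈ (α s).V :=
    Eventually.and (ball_mem_nhds (0 : ℂ) hε)
      (eventually_all.2 fun x => (hα 0 (mem_ball_self hε) _ (b2 x).1).1)
  obtain ⟨R, hR, H⟩ := Metric.eventually_nhds_iff_ball.1 ev
  set Y : ℂ → Fin M → ℂ := fun s c => (α s).val (co β y (c, none)) with hY
  have key : ∀ s q, Ch w β (Θ q) → LiftAt Θ y (α s) q → Θ q = Θ q (β none) • Y s :=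
    fun s q a1 a2 => funext fun c => by
      simp only [hY, Pi.smul_apply, smul_eq_mul]
      rw [((a2.co a1).2 _).2]
      simp only [co]
      rw [mul_div_cancel₀ _ (a1 none).2]
  obtain ⟨f, f1, f2, f3⟩ := hl R Y p hR (fun s hs => by
      obtain ⟨q, a1, a2⟩ := lift_chart h gd.clh hy b1 (H s hs).2
      exact ⟨q, _, key s q a1 a2⟩)
    (fun s hs => ⟨Y, analyticAt_pi_iff.2 fun c => (hα s (H s hs).1 _ ((H s hs).2 _)).2,
      Eventually.of_forall fun s' => ⟨fun e => by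
        have := congrFun e (β none)
        simp only [hY, co, div_self (b1 none).2, lift_one h] at this
        exact one_ne_zero this, 1, (one_smul _ _).symm⟩⟩) ⟨_, key 0 p hβ h0⟩
  refine ⟨f, f1.analyticAt (ball_mem_nhds _ hR), f2, ?_⟩
  filter_upwards [ball_mem_nhds (0 : ℂ) hR] with s hs
  obtain ⟨q, a1, a2⟩ := lift_chart h gd.clh hy b1 (H s hs).2
  obtain ⟨l, e⟩ := f3 s hs
  refine a2.smul (l := l / Θ q (β none)) ?_
  rw [e]
  conv_rhs => rw [key s q a1 a2]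
  ext c
  have := (a1 none).2
  have e1 : Y s (β none) = 1 := by simp only [hY, co, div_self (b1 none).2, lift_one h]
  simp only [Pi.smul_apply, smul_eq_mul, e1]
  field_simp

lemma lift_vf_smul (Q : Fin (t + a) → CI M t → CP M t) (c : ℂ) (v : Pt t a) (z : CI M t → ℂ)
    (x : CI M t) : vf Q (c • v) z x = c * vf Q v z x := by
  simp [vf, mul_sum, mul_assoc]

/-- The velocity of a lift is tangent to the foliation. -/
lemma lift_dir (h1 : SChain) (h4 : SCd) (h : FFd L) (gd : GD w Θ PP k) {m : ℕ}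
    {lam : Fin m → Pt t a} (hD : ∀ D : Derivation ℂ L L, ∃ γ : Fin m → L,
      Vel w PP D y fun i => ∑ l, γ l * algebraMap ℂ L (lam l i)) {α : ℂ → Pl L} {ε : ℝ}
    (hε : 0 < ε) (hα : Arc α (ball 0 ε)) {f : ℂ → Pt t a} (hf : AnalyticAt ℂ f 0)
    (ev : ∀ᶠ s in 𝓝 0, LiftAt Θ y (α s) (f s)) :
    ∀ᶠ s in 𝓝[≠] 0, ∃ c : Fin m → ℂ, deriv f s = ∑ l, c l • lam l := by
  obtain ⟨β, hβ⟩ := gd.ch (f 0)
  have b1 := (ev.self_of_nhds.co hβ).1
  have dΘ : ∀ c q, DifferentiableAt ℂ (fun q => Θ q c) q :=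
    fun c q => differentiableAt_pi.1 (gd.hol q) c
  have e1 : ∀ᶠ s in 𝓝 (0 : ℂ), Ch w β (Θ (f s)) := eventually_all.2 fun o =>
    (((dΘ (β o) _).continuousAt.comp hf.continuousAt).eventually_ne (hβ o).2).mono
      fun s hs => ⟨(hβ o).1, hs⟩
  have e2 : ∀ᶠ s in 𝓝 (0 : ℂ), Ch w β (Θ (f s)) ∧ (∀ x, co β y x ∈ (α s).V ∧
      (α s).val (co β y x) = co β (Θ (f s)) x) :=
    (e1.and ev).mono fun s hs => ⟨hs.1, (hs.2.co hs.1).2⟩
  have e3 : ∀ᶠ s in 𝓝 (0 : ℂ), ∀ x, deriv (fun s => (α s).val (co β y x)) s =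
      vf (PP β) (deriv f s) (co β (Θ (f s))) x := by
    filter_upwards [e2.eventually_nhds, hf.eventually_analyticAt] with s a1 a2 x
    have a3 := a1.self_of_nhds.1
    have dc : DifferentiableAt ℂ (fun q => co β (Θ q) x) (f s) := by
      simp only [co, div_eq_mul_inv]
      exact (dΘ _ _).mul ((dΘ _ _).inv (a3 x.2).2)
    have : (fun s => (α s).val (co β y x)) =ᶠ[𝓝 s] (fun q => co β (Θ q) x) ∘ f :=
      a1.mono fun s' hs' => (hs'.2 x).2
    rw [this.deriv_eq, ← gd.der β _ _ x a3]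
    exact (dc.hasFDerivAt.comp_hasDerivAt s a2.differentiableAt.hasDerivAt).deriv
  obtain ⟨D, _, _, _, cd, -⟩ := h4 L h ∅ (α 0) (notMem_empty _)
  obtain ⟨T, hT⟩ := cd.par
  obtain ⟨γ, hγ⟩ := hD D
  rcases h1 L h D T α ε hT hε hα with c | c
  · refine mem_nhdsWithin_of_mem_nhds ?_
    filter_upwards [c.eventually_nhds, e1, e3] with s a1 a2 a3
    refine ⟨0, (gd.imm β _ _ a2 fun x => ?_).trans (by simp)⟩
    have : (fun s => (α s).val (co β y x)) =ᶠ[𝓝 s] fun _ => (α 0).val (co β y x) :=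
      a1.mono fun s' hs' => by simp only [hs']
    rw [← a3, this.deriv_eq, deriv_const]
  · filter_upwards [eventually_all.2 fun x => c (co β y x), eventually_all.2 fun l => c (γ l),
      mem_nhdsWithin_of_mem_nhds e2, mem_nhdsWithin_of_mem_nhds e3] with s a1 a2 a3 a4
    refine ⟨fun l => deriv (fun s => (α s).val T) s * (α s).val (γ l),
      sub_eq_zero.1 (gd.imm β _ _ a3.1 fun x => ?_)⟩
    have m : ∀ i l, γ l * algebraMap ℂ L (lam l i) ∈ (α s).V :=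
      fun i l => mul_mem (a2 l).1 ((α s).const _)
    rw [vf_sub, ← a4, (a1 x).2, hγ β b1, lift_vf h _ _ (fun i => sum_mem fun l _ => m i l)
      fun x => (a3.2 x).1, ← lift_vf_smul, sub_eq_zero, funext fun x => (a3.2 x).2]
    congr 1
    ext i
    simp only [Pi.smul_apply, smul_eq_mul, Finset.sum_apply]
    rw [lift_sum h _ _ _ (m i), mul_sum]
    exact sum_congr rfl fun l _ => by
      rw [lift_mul h _ (a2 l).1 ((α s).const _), lift_cst h, mul_assoc]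

/-- A holomorphic curve tangent to a subspace lies in a translate of it. -/
lemma lift_int {m : ℕ} {lam : Fin m → Pt t a} (hl : LinearIndependent ℂ lam) {f : ℂ → Pt t a}
    (hf : AnalyticAt ℂ f 0) (ev : ∀ᶠ s in 𝓝[≠] 0, ∃ c : Fin m → ℂ, deriv f s = ∑ l, c l • lam l) :
    ∃ γ : ℂ → Fin m → ℂ, AnalyticAt ℂ γ 0 ∧ ∀ᶠ s in 𝓝 0, f s = qq (f 0) lam (γ s) := by
  obtain ⟨j, hj⟩ := (Fintype.linearCombination ℂ lam).exists_leftInverse_of_injective
    (LinearMap.ker_eq_bot.2 (linearIndependent_iff_injective_fintypeLinearCombination.1 hl))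
  let J : Pt t a →L[ℂ] (Fin m → ℂ) := LinearMap.toContinuousLinearMap j
  let A : Pt t a →L[ℂ] Pt t a :=
    LinearMap.toContinuousLinearMap (LinearMap.id - Fintype.linearCombination ℂ lam ∘ₗ j)
  have hA : ∀ v, A v = v - ∑ l, j v l • lam l := fun _ => rfl
  have c1 : ContinuousAt (fun s => A (deriv f s)) 0 :=
    A.continuous.continuousAt.comp hf.deriv.continuousAt
  have e1 : ∀ᶠ s in 𝓝[≠] (0 : ℂ), A (deriv f s) = 0 := ev.mono fun s ⟨c, hc⟩ => by
    have : j (∑ l, c l • lam l) = c := LinearMap.congr_fun hj c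
    rw [hA, hc, this, sub_self]
  have e2 : A (deriv f 0) = 0 :=
    tendsto_nhds_unique (c1.tendsto.mono_left nhdsWithin_le_nhds)
      (tendsto_const_nhds.congr' (e1.mono fun _ h => h.symm))
  have e3 : ∀ᶠ s in 𝓝 (0 : ℂ), A (deriv f s) = 0 := by
    rw [← nhdsNE_sup_pure, eventually_sup]
    exact ⟨e1, e2⟩
  obtain ⟨R, hR, H⟩ := Metric.eventually_nhds_iff_ball.1 (e3.and hf.eventually_analyticAt)
  have d : ∀ s ∈ ball (0 : ℂ) R, HasDerivAt (A ∘ f) 0 s := fun s hs =>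
    (H s hs).1 ▸ A.hasFDerivAt.comp_hasDerivAt s (H s hs).2.differentiableAt.hasDerivAt
  refine ⟨fun s => J (f s - f 0), (J.analyticAt _).comp (hf.sub analyticAt_const), ?_⟩
  filter_upwards [ball_mem_nhds (0 : ℂ) hR] with s hs
  have : A (f s) = A (f 0) := isOpen_ball.is_const_of_deriv_eq_zero (f := A ∘ f)
    (convex_ball _ _).isPreconnected (fun s hs => (d s hs).differentiableAt.differentiableWithinAt)
    (fun s hs => (d s hs).deriv) hs (mem_ball_self hR)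
  rw [← sub_eq_zero, ← map_sub, hA, sub_eq_zero, sub_eq_iff_eq_add'] at this
  exact this

lemma lift_unc {α : ℂ → Pl L} {ε : ℝ} (hε : 0 < ε) (hi : Set.InjOn α (ball 0 ε)) {A : Set (Pl L)}
    (ev : ∀ᶠ s in 𝓝 0, α s ∈ A) : ¬ A.Countable := fun hA => by
  have h1 : ({s | α s ∈ A} ∩ ball 0 ε).Countable :=
    Set.MapsTo.countable_of_injOn (f := α) (fun _ hs => hs.1) (hi.mono Set.inter_subset_right) hA
  exact (MeasureTheory.Measure.measure_pos_of_mem_nhds MeasureTheory.volume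
    (inter_mem ev (ball_mem_nhds (0 : ℂ) hε))).ne' (h1.measure_zero _)

theorem sLift (h1 : SChain) (h2 : SConn) (h3 : SArcP) (h4 : SCd) : SLift := by
  intro t a M w Θ PP k m lam L _ _ y S P₀ ga hl gd li h hy hD hS h0
  have ex : ∀ P ∉ S, ∃ p, LiftAt Θ y P p := fun P hP => by
    obtain ⟨β, a1, a2⟩ := hS P hP
    obtain ⟨p, -, a3⟩ := lift_chart h gd.clh hy a1 a2
    exact ⟨p, a3⟩
  have loc : ∀ (α : ℂ → Pl L) (ε : ℝ) p, 0 < ε → Arc α (ball 0 ε) → LiftAt Θ y (α 0) p →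
      ∃ γ : ℂ → Fin m → ℂ, AnalyticAt ℂ γ 0 ∧ ∀ᶠ s in 𝓝 0, LiftAt Θ y (α s) (qq p lam (γ s)) :=
    fun α ε p hε hα hp => by
      obtain ⟨f, f1, rfl, f3⟩ := lift_loc h hl gd hy hε hα hp
      obtain ⟨γ, g1, g2⟩ := lift_int li f1 (lift_dir h1 h4 h gd hD hε hα f1 f3)
      exact ⟨γ, g1, (g2.and f3).mono fun s hs => hs.1 ▸ hs.2⟩
  obtain ⟨p₁, hp⟩ := ex P₀ h0
  have qa : ∀ c c', qq (qq p₁ lam c) lam c' = qq p₁ lam (c + c') := fun c c' => by
    simp [qq, add_smul, sum_add_distrib, add_assoc]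
  set A : Set (Pl L) := {P | ∃ c, LiftAt Θ y P (qq p₁ lam c)} with hA
  have op : ∀ (α : ℂ → Pl L) (ε : ℝ), 0 < ε → Arc α (ball 0 ε) → α 0 ∈ A →
      ∀ᶠ s in 𝓝 0, α s ∈ A := fun α ε hε hα ⟨c, hc⟩ => by
    obtain ⟨γ, -, g2⟩ := loc α ε _ hε hα hc
    exact g2.mono fun s hs => ⟨_, qa _ _ ▸ hs⟩
  have cl : ∀ (α : ℂ → Pl L) (ε : ℝ), 0 < ε → Arc α (ball 0 ε) → α 0 ∉ S → α 0 ∉ A →
      ∀ᶠ s in 𝓝 0, α s ∉ A := fun α ε hε hα a1 a2 => by
    obtain ⟨p, b1⟩ := ex _ a1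
    obtain ⟨γ, -, g2⟩ := loc α ε _ hε hα b1
    refine g2.mono fun s hs ⟨c, hc⟩ => a2 ⟨c - γ s, b1.per ga ?_⟩
    have e : qq p₁ lam (c - γ s) - p = qq p₁ lam c - qq p lam (γ s) := by
      simp only [qq, Pi.sub_apply, sub_smul, sum_sub_distrib]; abel
    exact e ▸ hc.uni h ga hs
  have q0 : qq p₁ lam 0 = p₁ := by simp [qq]
  have cc : Aᶜ.Countable := by
    refine (h2 L h S A fun α ε hε hα _ a1 => ?_).resolve_left ?_
    · by_cases e : α 0 ∈ A
      · exact Or.inl ((op α ε hε hα e).filter_mono nhdsWithin_le_nhds)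
      · exact Or.inr ((cl α ε hε hα a1 e).filter_mono nhdsWithin_le_nhds)
    · obtain ⟨α, ε, hε, rfl, hα, hi, -⟩ := h3 L h P₀
      exact lift_unc hε hi (op α ε hε hα ⟨0, q0.symm ▸ hp⟩)
  have all : ∀ P ∉ S, P ∈ A := fun P hP => by
    by_contra e
    obtain ⟨α, ε, hε, rfl, hα, hi, -⟩ := h3 L h P
    exact lift_unc hε hi (cl α ε hε hα hP e) cc
  have : ∀ P, ∃ c : Fin m → ℂ, (P = P₀ → c = 0) ∧ (P ∈ A → LiftAt Θ y P (qq p₁ lam c)) :=
    fun P => by
      by_cases e : P = P₀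
      · exact ⟨0, fun _ => rfl, fun _ => e ▸ q0.symm ▸ hp⟩
      · by_cases e' : P ∈ A
        · exact ⟨e'.choose, fun a => absurd a e, fun _ => e'.choose_spec⟩
        · exact ⟨0, fun _ => rfl, fun a => absurd a e'⟩
  choose g g1 g2 using this
  refine ⟨p₁, g, g1 _ rfl, fun P hP => (g2 P (all P hP)).red ga, fun α ε hε hα a1 => ?_⟩
  obtain ⟨γ, b1, b2⟩ := loc α ε _ hε hα (g2 _ (all _ a1))
  refine ⟨fun s => g (α 0) + γ s, analyticAt_const.add b1, ?_⟩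
  filter_upwards [b2, op α ε hε hα (all _ a1)] with s c1 c2
  have e : ∑ l, (g (α s) - (g (α 0) + γ s)) l • lam l =
      qq p₁ lam (g (α s)) - qq p₁ lam (g (α 0) + γ s) := by
    simp only [qq, Pi.sub_apply, sub_smul, sum_sub_distrib]; abel
  exact e ▸ (g2 _ c2).uni h ga (qa _ _ ▸ c1)

end Pool.Agent.MP_c69980_ag.H43
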